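import Mathlib
import Pool.Agent.TH407.PR.Defs
set_option autoImplicit false

/-!
# Fubini for the extension operator on tensor products
-/

namespace Pool.Agent.TH461.PR

open MeasureTheory Set Complex
open scoped ENNReal NNReal Real
open Pool.Agent.TH407.PR

/-- Tonelli's theorem for products of functions of one coordinate -/
theorem lintegral_fin_prod {E : Type} [MeasureSpace E] [SigmaFinite (volume : Measure E)] :
    ∀ (n : ℕ) (f : Fin n → E → ℝ≥0∞), (∀ i, Measurable (f i)) →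
      ∫⁻ x : Fin n → E, ∏ i, f i (x i) = ∏ i, ∫⁻ x, f i x := by
  intro n
  induction n with
  | zero =>
    intro f _
    simp [volume_pi]
  | succ n ih =>
    intro f hf
    have hmp := (measurePreserving_piFinSuccAbove (fun _ : Fin (n + 1) => (volume : Measure E)) 0).symm
    have h1 : ∫⁻ x : Fin (n + 1) → E, ∏ i, f i (x i) =
        ∫⁻ x : E × (Fin n → E), f 0 x.1 * ∏ i : Fin n, f i.succ (x.2 i)
          ∂((volume : Measure E).prod (Measure.pi (fun _ => (volume : Measure E)))) := by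
      have h2 := hmp.lintegral_comp_emb (MeasurableEquiv.measurableEmbedding _)
        (fun x : Fin (n + 1) → E => ∏ i, f i (x i))
      rw [volume_pi, ← h2]
      refine lintegral_congr fun x => ?_
      rw [Fin.prod_univ_succ]
      rfl
    have hg : Measurable fun x : Fin n → E => ∏ i : Fin n, f i.succ (x i) :=
      Finset.measurable_prod _ fun i _ => (hf i.succ).comp (measurable_pi_apply i)
    rw [h1, lintegral_prod_mul (f := f 0) (g := fun x : Fin n → E => ∏ i : Fin n, f i.succ (x i))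
      (hf 0).aemeasurable hg.aemeasurable]
    have h3 := ih (fun i => f i.succ) (fun i => hf i.succ)
    rw [volume_pi] at h3
    rw [h3, Fin.prod_univ_succ]

section Reindex

variable {n k l : ℕ} (e : (Fin k × Fin 2) ⊕ Fin l ≃ Fin n)

/-- the inverse of the reindexing -/
def psi (P : (Fin k → ℝ × ℝ) × (Fin l → ℝ)) (m : Fin n) : ℝ :=
  Sum.elim (fun x : Fin k × Fin 2 => if x.2 = 0 then (P.1 x.1).1 else (P.1 x.1).2) P.2 (e.symm m)

/-- the reindexing -/
def phi (ξ : Fin n → ℝ) : (Fin k → ℝ × ℝ) × (Fin l → ℝ) :=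
  (fun j => (ξ (e (Sum.inl (j, 0))), ξ (e (Sum.inl (j, 1)))), fun i => ξ (e (Sum.inr i)))

lemma psi_inl0 (P : (Fin k → ℝ × ℝ) × (Fin l → ℝ)) (j : Fin k) :
    psi e P (e (Sum.inl (j, 0))) = (P.1 j).1 := by simp [psi]

lemma psi_inl1 (P : (Fin k → ℝ × ℝ) × (Fin l → ℝ)) (j : Fin k) :
    psi e P (e (Sum.inl (j, 1))) = (P.1 j).2 := by simp [psi]

lemma psi_inr (P : (Fin k → ℝ × ℝ) × (Fin l → ℝ)) (i : Fin l) :
    psi e P (e (Sum.inr i)) = P.2 i := by simp [psi]

lemma phi_psi (P : (Fin k → ℝ × ℝ) × (Fin l → ℝ)) : phi e (psi e P) = P := by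
  unfold phi
  simp only [psi_inl0, psi_inl1, psi_inr]

lemma forall_fin {p : Fin n → Prop} (h0 : ∀ j, p (e (Sum.inl (j, 0))))
    (h1 : ∀ j, p (e (Sum.inl (j, 1)))) (h2 : ∀ i, p (e (Sum.inr i))) : ∀ m, p m := by
  intro m
  obtain ⟨x, rfl⟩ := e.surjective m
  rcases x with ⟨j, i⟩ | i
  · fin_cases i
    · exact h0 j
    · exact h1 j
  · exact h2 i

lemma psi_phi (ξ : Fin n → ℝ) : psi e (phi e ξ) = ξ := by
  funext m
  revert m
  refine forall_fin e ?_ ?_ ?_
  · intro j; rw [psi_inl0]; rfl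
  · intro j; rw [psi_inl1]; rfl
  · intro i; rw [psi_inr]; rfl

lemma measurable_psi : Measurable (psi e) := by
  refine measurable_pi_lambda _ ?_
  refine forall_fin e ?_ ?_ ?_
  · intro j
    simp only [psi_inl0]
    exact ((measurable_pi_apply j).comp measurable_fst).fst
  · intro j
    simp only [psi_inl1]
    exact ((measurable_pi_apply j).comp measurable_fst).snd
  · intro i
    simp only [psi_inr]
    exact (measurable_pi_apply i).comp measurable_snd

lemma measurable_phi : Measurable (phi e) := by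
  refine Measurable.prodMk (measurable_pi_lambda _ fun j => ?_) (measurable_pi_lambda _ fun i => ?_)
  · exact (measurable_pi_apply _).prodMk (measurable_pi_apply _)
  · exact measurable_pi_apply _

/-- the reindexing as a measurable equivalence -/
def Psi : ((Fin k → ℝ × ℝ) × (Fin l → ℝ)) ≃ᵐ (Fin n → ℝ) where
  toFun := psi e
  invFun := phi e
  left_inv := phi_psi e
  right_inv := psi_phi e
  measurable_toFun := measurable_psi e
  measurable_invFun := measurable_phi e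

lemma sum_fin {M : Type} [AddCommMonoid M] (g : Fin n → M) :
    ∑ m, g m = (∑ j, (g (e (Sum.inl (j, 0))) + g (e (Sum.inl (j, 1))))) +
      ∑ i, g (e (Sum.inr i)) := by
  rw [← e.sum_comp, Fintype.sum_sum_type, Fintype.sum_prod_type]
  simp only [Fin.sum_univ_two]

lemma prod_fin {M : Type} [CommMonoid M] (g : Fin n → M) :
    ∏ m, g m = (∏ j, (g (e (Sum.inl (j, 0))) * g (e (Sum.inl (j, 1))))) *
      ∏ i, g (e (Sum.inr i)) := by
  rw [← e.prod_comp, Fintype.prod_sum_type, Fintype.prod_prod_type]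
  simp only [Fin.prod_univ_two]

lemma preimage_pi (s : Fin n → Set ℝ) :
    psi e ⁻¹' (Set.univ.pi s) =
      (Set.univ.pi fun j => s (e (Sum.inl (j, 0))) ×ˢ s (e (Sum.inl (j, 1)))) ×ˢ
        (Set.univ.pi fun i => s (e (Sum.inr i))) := by
  ext P
  simp only [mem_preimage, mem_univ_pi, mem_prod]
  constructor
  · intro h
    refine ⟨fun j => ⟨?_, ?_⟩, fun i => ?_⟩
    · have := h (e (Sum.inl (j, 0))); rwa [psi_inl0] at this
    · have := h (e (Sum.inl (j, 1))); rwa [psi_inl1] at this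
    · have := h (e (Sum.inr i)); rwa [psi_inr] at this
  · rintro ⟨h1, h2⟩
    refine forall_fin e ?_ ?_ ?_
    · intro j; rw [psi_inl0]; exact (h1 j).1
    · intro j; rw [psi_inl1]; exact (h1 j).2
    · intro i; rw [psi_inr]; exact h2 i

lemma mp_Psi : MeasurePreserving (Psi e) volume volume := by
  refine ⟨(Psi e).measurable, ?_⟩
  rw [volume_pi]
  refine (Measure.pi_eq fun s hs => ?_).symm
  rw [Measure.map_apply (Psi e).measurable (MeasurableSet.univ_pi hs)]
  have h : (Psi e) ⁻¹' (Set.univ.pi s) =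
      (Set.univ.pi fun j => s (e (Sum.inl (j, 0))) ×ˢ s (e (Sum.inl (j, 1)))) ×ˢ
        (Set.univ.pi fun i => s (e (Sum.inr i))) := preimage_pi e s
  rw [h, Measure.volume_eq_prod, Measure.prod_prod, volume_pi_pi, volume_pi_pi, prod_fin e]
  congr 1
  refine Finset.prod_congr rfl fun j _ => ?_
  rw [Measure.volume_eq_prod, Measure.prod_prod]

end Reindex

lemma tens_psi {n k l : ℕ} (e : (Fin k × Fin 2) ⊕ Fin l ≃ Fin n) (F : Fin k → ℝ × ℝ → ℂ)
    (b : Fin l → ℝ → ℂ) (P : (Fin k → ℝ × ℝ) × (Fin l → ℝ)) :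
    tens e F b (psi e P) = (∏ j, F j (P.1 j)) * ∏ i, b i (P.2 i) := by
  unfold tens
  simp only [psi_inl0, psi_inl1, psi_inr]

lemma EN_psi {n k l : ℕ} (e : (Fin k × Fin 2) ⊕ Fin l ≃ Fin n) (F : Fin k → ℝ × ℝ → ℂ)
    (b : Fin l → ℝ → ℂ) (Y : (Fin k → ℝ × ℝ) × (Fin l → ℝ)) (t : ℝ) :
    EN (tens e F b) (psi e Y, t) =
      (∏ j, Pool.Agent.TH407.AR.EX (F j) ((-(2 * π)) • Y.1 j) (-(2 * π * t))) *
        ∏ i, E1 (b i) ((-(2 * π)) • Y.2 i) (-(2 * π * t)) := by
  unfold EN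
  rw [← (mp_Psi e).integral_comp' (g := fun ξ : Fin n → ℝ => tens e F b ξ *
    cexp (2 * Real.pi * I * ((∑ j, ξ j * (psi e Y, t).1 j + (∑ j, ξ j ^ 2) * (psi e Y, t).2 : ℝ) : ℂ)))]
  have h : ∀ P : (Fin k → ℝ × ℝ) × (Fin l → ℝ),
      tens e F b (Psi e P) * cexp (2 * Real.pi * I *
        ((∑ j, (Psi e P) j * (psi e Y, t).1 j + (∑ j, (Psi e P) j ^ 2) * (psi e Y, t).2 : ℝ) : ℂ)) =
      (∏ j, (cexp (-(I * ((((P.1 j).1 * ((-(2 * π)) • Y.1 j).1 + (P.1 j).2 * ((-(2 * π)) • Y.1 j).2 +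
        Pool.Agent.TH407.AR.sq (P.1 j) * (-(2 * π * t)) : ℝ) : ℂ)))) * F j (P.1 j))) *
      ∏ i, (cexp (-(I * (((P.2 i * ((-(2 * π)) • Y.2 i) + P.2 i ^ 2 * (-(2 * π * t)) : ℝ) : ℂ)))) *
        b i (P.2 i)) := by
    intro P
    have e1 : tens e F b (Psi e P) = (∏ j, F j (P.1 j)) * ∏ i, b i (P.2 i) := tens_psi e F b P
    rw [e1, Finset.prod_mul_distrib, Finset.prod_mul_distrib, ← Complex.exp_sum, ← Complex.exp_sum]
    have e2 : cexp (2 * Real.pi * I *
        ((∑ j, (Psi e P) j * (psi e Y, t).1 j + (∑ j, (Psi e P) j ^ 2) * (psi e Y, t).2 : ℝ) : ℂ)) =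
        cexp (∑ j, -(I * ((((P.1 j).1 * ((-(2 * π)) • Y.1 j).1 +
          (P.1 j).2 * ((-(2 * π)) • Y.1 j).2 +
          Pool.Agent.TH407.AR.sq (P.1 j) * (-(2 * π * t)) : ℝ) : ℂ)))) *
        cexp (∑ i, -(I * (((P.2 i * ((-(2 * π)) • Y.2 i) + P.2 i ^ 2 * (-(2 * π * t)) : ℝ) : ℂ)))) := by
      rw [← Complex.exp_add]
      congr 1
      have e3 : (∑ j, (Psi e P) j * (psi e Y, t).1 j + (∑ j, (Psi e P) j ^ 2) * (psi e Y, t).2 : ℝ) =
          (∑ j, ((P.1 j).1 * (Y.1 j).1 + (P.1 j).2 * (Y.1 j).2 +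
            Pool.Agent.TH407.AR.sq (P.1 j) * t)) + ∑ i, (P.2 i * Y.2 i + P.2 i ^ 2 * t) := by
        show ∑ j, psi e P j * psi e Y j + (∑ j, psi e P j ^ 2) * t = _
        rw [Finset.sum_mul, ← Finset.sum_add_distrib, sum_fin e]
        simp only [psi_inl0, psi_inl1, psi_inr]
        congr 1
        refine Finset.sum_congr rfl fun j _ => ?_
        unfold Pool.Agent.TH407.AR.sq
        ring
      rw [e3]
      push_cast
      rw [mul_add, Finset.mul_sum, Finset.mul_sum]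
      congr 1
      · refine Finset.sum_congr rfl fun j _ => ?_
        simp only [Prod.smul_fst, Prod.smul_snd, smul_eq_mul]
        push_cast
        ring
      · refine Finset.sum_congr rfl fun i _ => ?_
        simp only [smul_eq_mul]
        push_cast
        ring
    rw [e2]
    ring
  rw [integral_congr_ae (Filter.Eventually.of_forall h), Measure.volume_eq_prod]
  rw [integral_prod_mul (fun P : Fin k → ℝ × ℝ => ∏ j, (cexp (-(I * ((((P j).1 *
      ((-(2 * π)) • Y.1 j).1 + (P j).2 * ((-(2 * π)) • Y.1 j).2 +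
      Pool.Agent.TH407.AR.sq (P j) * (-(2 * π * t)) : ℝ) : ℂ)))) * F j (P j)))
    (fun R : Fin l → ℝ => ∏ i, (cexp (-(I * (((R i * ((-(2 * π)) • Y.2 i) +
      R i ^ 2 * (-(2 * π * t)) : ℝ) : ℂ)))) * b i (R i)))]
  congr 1
  · exact integral_fintype_prod_volume_eq_prod (fun (j : Fin k) (x : ℝ × ℝ) =>
      cexp (-(I * (((x.1 * ((-(2 * π)) • Y.1 j).1 + x.2 * ((-(2 * π)) • Y.1 j).2 +
        Pool.Agent.TH407.AR.sq x * (-(2 * π * t)) : ℝ) : ℂ)))) * F j x)
  · exact integral_fintype_prod_volume_eq_prod (fun (i : Fin l) (x : ℝ) =>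
      cexp (-(I * (((x * ((-(2 * π)) • Y.2 i) + x ^ 2 * (-(2 * π * t)) : ℝ) : ℂ)))) * b i x)

lemma measurable_EX {f : ℝ × ℝ → ℂ} (hf : Measurable f) (t : ℝ) :
    Measurable (fun X => Pool.Agent.TH407.AR.EX f X t) := by
  unfold Pool.Agent.TH407.AR.EX
  have h : Measurable (Function.uncurry fun (X x : ℝ × ℝ) =>
      cexp (-(I * ((x.1 * X.1 + x.2 * X.2 + Pool.Agent.TH407.AR.sq x * t : ℝ) : ℂ))) * f x) := by
    unfold Pool.Agent.TH407.AR.sq
    refine Measurable.mul ?_ (hf.comp measurable_snd)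
    refine Complex.measurable_exp.comp ?_
    refine Measurable.neg (Measurable.mul measurable_const ?_)
    refine Complex.measurable_ofReal.comp ?_
    have : Continuous fun a : (ℝ × ℝ) × ℝ × ℝ =>
      a.2.1 * a.1.1 + a.2.2 * a.1.2 + (a.2.1 ^ 2 + a.2.2 ^ 2) * t := by fun_prop
    exact this.measurable
  exact (h.stronglyMeasurable.integral_prod_right).measurable

lemma measurable_E1 {f : ℝ → ℂ} (hf : Measurable f) (t : ℝ) :
    Measurable (fun y => E1 f y t) := by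
  unfold E1
  have h : Measurable (Function.uncurry fun (y x : ℝ) =>
      cexp (-(I * ((x * y + x ^ 2 * t : ℝ) : ℂ))) * f x) := by
    refine Measurable.mul ?_ (hf.comp measurable_snd)
    refine Complex.measurable_exp.comp ?_
    refine Measurable.neg (Measurable.mul measurable_const ?_)
    refine Complex.measurable_ofReal.comp ?_
    have : Continuous fun a : ℝ × ℝ => a.2 * a.1 + a.2 ^ 2 * t := by fun_prop
    exact this.measurable
  exact (h.stronglyMeasurable.integral_prod_right).measurable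

lemma lintegral_scale2 (g : ℝ × ℝ → ℝ≥0∞) (hg : Measurable g) :
    ∫⁻ Y : ℝ × ℝ, g ((-(2 * π)) • Y) = ENNReal.ofReal ((2 * π) ^ (-2 : ℝ)) * ∫⁻ X, g X := by
  have hr : (-(2 * π)) ≠ 0 := by
    have := Real.pi_pos
    intro h
    linarith
  have h := Measure.map_addHaar_smul (volume : Measure (ℝ × ℝ)) hr
  have h1 : ∫⁻ Y : ℝ × ℝ, g ((-(2 * π)) • Y) =
      ∫⁻ X, g X ∂(Measure.map (fun Y : ℝ × ℝ => (-(2 * π)) • Y) volume) :=
    (lintegral_map hg (measurable_const_smul _)).symm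
  rw [h1, h, lintegral_smul_measure, smul_eq_mul]
  congr 2
  have : Module.finrank ℝ (ℝ × ℝ) = 2 := by simp
  rw [this, neg_sq, Real.rpow_neg (by positivity), abs_of_pos (by positivity)]
  norm_num

lemma lintegral_scale1 (g : ℝ → ℝ≥0∞) (hg : Measurable g) :
    ∫⁻ Y : ℝ, g ((-(2 * π)) • Y) = ENNReal.ofReal ((2 * π) ^ (-1 : ℝ)) * ∫⁻ X, g X := by
  have hr : (-(2 * π)) ≠ 0 := by
    have := Real.pi_pos
    intro h
    linarith
  have h := Measure.map_addHaar_smul (volume : Measure ℝ) hr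
  have h1 : ∫⁻ Y : ℝ, g ((-(2 * π)) • Y) =
      ∫⁻ X, g X ∂(Measure.map (fun Y : ℝ => (-(2 * π)) • Y) volume) :=
    (lintegral_map hg (measurable_const_smul _)).symm
  rw [h1, h, lintegral_smul_measure, smul_eq_mul]
  congr 2
  rw [Module.finrank_self, pow_one, Real.rpow_neg (by positivity), Real.rpow_one, abs_inv, abs_neg,
    abs_of_pos (by positivity)]

theorem tensor : Tensor := by
  intro n k l e F b hF hb q hq t
  have h0 : ∫⁻ y : Fin n → ℝ, ‖EN (tens e F b) (y, t)‖ₑ ^ q =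
      ∫⁻ Y : (Fin k → ℝ × ℝ) × (Fin l → ℝ), ‖EN (tens e F b) (psi e Y, t)‖ₑ ^ q :=
    ((mp_Psi e).lintegral_comp_emb (Psi e).measurableEmbedding
      (fun y => ‖EN (tens e F b) (y, t)‖ₑ ^ q)).symm
  have hm2 : ∀ j, Measurable fun X : ℝ × ℝ =>
      ‖Pool.Agent.TH407.AR.EX (F j) X (-(2 * π * t))‖ₑ ^ q := fun j =>
    ((measurable_EX (hF j) _).enorm).pow_const q
  have hm1 : ∀ i, Measurable fun y : ℝ => ‖E1 (b i) y (-(2 * π * t))‖ₑ ^ q := fun i =>
    ((measurable_E1 (hb i) _).enorm).pow_const q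
  have hs2 : Measurable fun Y : ℝ × ℝ => (-(2 * π)) • Y := measurable_const_smul _
  have hs1 : Measurable fun Y : ℝ => (-(2 * π)) • Y := measurable_const_smul _
  have h1 : ∀ Y : (Fin k → ℝ × ℝ) × (Fin l → ℝ), ‖EN (tens e F b) (psi e Y, t)‖ₑ ^ q =
      (∏ j, ‖Pool.Agent.TH407.AR.EX (F j) ((-(2 * π)) • Y.1 j) (-(2 * π * t))‖ₑ ^ q) *
        ∏ i, ‖E1 (b i) ((-(2 * π)) • Y.2 i) (-(2 * π * t))‖ₑ ^ q := by
    intro Y
    rw [EN_psi, enorm_mul, ENNReal.mul_rpow_of_nonneg _ _ hq.le]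
    congr 1
    · rw [ENNReal.prod_rpow_of_nonneg hq.le]
      congr 1
      simp only [enorm_eq_nnnorm, nnnorm_prod, ENNReal.ofNNReal_finsetProd]
    · rw [ENNReal.prod_rpow_of_nonneg hq.le]
      congr 1
      simp only [enorm_eq_nnnorm, nnnorm_prod, ENNReal.ofNNReal_finsetProd]
  rw [h0, lintegral_congr h1, Measure.volume_eq_prod]
  rw [lintegral_prod_mul
    (f := fun Y : Fin k → ℝ × ℝ =>
      ∏ j, ‖Pool.Agent.TH407.AR.EX (F j) ((-(2 * π)) • Y j) (-(2 * π * t))‖ₑ ^ q)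
    (g := fun y : Fin l → ℝ => ∏ i, ‖E1 (b i) ((-(2 * π)) • y i) (-(2 * π * t))‖ₑ ^ q)
    (Finset.measurable_prod _ fun j _ =>
      ((hm2 j).comp hs2).comp (measurable_pi_apply j)).aemeasurable
    (Finset.measurable_prod _ fun i _ =>
      ((hm1 i).comp hs1).comp (measurable_pi_apply i)).aemeasurable]
  rw [lintegral_fin_prod k (fun j (X : ℝ × ℝ) =>
      ‖Pool.Agent.TH407.AR.EX (F j) ((-(2 * π)) • X) (-(2 * π * t))‖ₑ ^ q)
      (fun j => (hm2 j).comp hs2),
    lintegral_fin_prod l (fun i (y : ℝ) => ‖E1 (b i) ((-(2 * π)) • y) (-(2 * π * t))‖ₑ ^ q)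
      (fun i => (hm1 i).comp hs1)]
  have h2 : ∀ j, ∫⁻ X : ℝ × ℝ, ‖Pool.Agent.TH407.AR.EX (F j) ((-(2 * π)) • X) (-(2 * π * t))‖ₑ ^ q =
      ENNReal.ofReal ((2 * π) ^ (-2 : ℝ)) *
        ∫⁻ X : ℝ × ℝ, ‖Pool.Agent.TH407.AR.EX (F j) X (-(2 * π * t))‖ₑ ^ q := fun j =>
    lintegral_scale2 _ (hm2 j)
  have h3 : ∀ i, ∫⁻ y : ℝ, ‖E1 (b i) ((-(2 * π)) • y) (-(2 * π * t))‖ₑ ^ q =
      ENNReal.ofReal ((2 * π) ^ (-1 : ℝ)) * ∫⁻ y : ℝ, ‖E1 (b i) y (-(2 * π * t))‖ₑ ^ q := fun i =>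
    lintegral_scale1 _ (hm1 i)
  rw [Finset.prod_congr rfl fun j _ => h2 j, Finset.prod_congr rfl fun i _ => h3 i,
    Finset.prod_mul_distrib, Finset.prod_mul_distrib, Finset.prod_const, Finset.prod_const,
    Finset.card_univ, Finset.card_univ, Fintype.card_fin, Fintype.card_fin]
  have hn : 2 * k + l = n := by
    have := Fintype.card_congr e
    simp at this
    omega
  have h4 : ENNReal.ofReal ((2 * π) ^ (-(n : ℝ))) =
      ENNReal.ofReal ((2 * π) ^ (-2 : ℝ)) ^ k * ENNReal.ofReal ((2 * π) ^ (-1 : ℝ)) ^ l := by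
    have hp : (0 : ℝ) < 2 * π := by positivity
    rw [← ENNReal.ofReal_pow (by positivity), ← ENNReal.ofReal_pow (by positivity),
      ← ENNReal.ofReal_mul (by positivity), ← Real.rpow_natCast, ← Real.rpow_natCast,
      ← Real.rpow_mul hp.le, ← Real.rpow_mul hp.le, ← Real.rpow_add hp]
    congr 2
    rw [← hn]
    push_cast
    ring
  rw [h4]
  ring

end Pool.Agent.TH461.PR
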